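import Mathlib

set_option autoImplicit false

namespace Pool.Agent.H.MP_a761b9_al

open Filter Topology

/-- ends of the rooted binary tree -/
abbrev Om := ℕ → ZMod 2

/-- two ends agree below level n -/
def ag (n : ℕ) (x y : Om) : Prop := ∀ i < n, x i = y i

theorem ag_refl (n : ℕ) (x : Om) : ag n x x := fun _ _ => rfl
theorem ag_symm {n : ℕ} {x y : Om} (h : ag n x y) : ag n y x := fun i hi => (h i hi).symm
theorem ag_trans {n : ℕ} {x y z : Om} (h : ag n x y) (h' : ag n y z) : ag n x z :=
  fun i hi => (h i hi).trans (h' i hi)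
theorem ag_mono {m n : ℕ} (hmn : m ≤ n) {x y : Om} (h : ag n x y) : ag m x y :=
  fun i hi => h i (lt_of_lt_of_le hi hmn)
theorem eq_of_ag {x y : Om} (h : ∀ n, ag n x y) : x = y :=
  funext fun i => h (i + 1) i (Nat.lt_succ_self i)
theorem ag_congr {n : ℕ} {x y x' y' : Om} (h : ag n x x') (h' : ag n y y') :
    ag n x y ↔ ag n x' y' :=
  ⟨fun k => ag_trans (ag_symm h) (ag_trans k h'), fun k => ag_trans h (ag_trans k (ag_symm h'))⟩

/-- automorphisms of the binary tree, as permutations of the ends -/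
def KK : Subgroup (Equiv.Perm Om) where
  carrier := {g | ∀ n x y, ag n (g x) (g y) ↔ ag n x y}
  one_mem' := fun _ _ _ => Iff.rfl
  mul_mem' := fun {a b} ha hb n x y => by
    simp only [Equiv.Perm.coe_mul, Function.comp_apply]
    exact (ha n _ _).trans (hb n _ _)
  inv_mem' := fun {a} ha n x y => by
    have := ha n (a⁻¹ x) (a⁻¹ y)
    simpa using this.symm

/-- the group -/
abbrev K := ↥KK

theorem K_ag (g : K) (n : ℕ) (x y : Om) : ag n (g.1 x) (g.1 y) ↔ ag n x y := g.2 n x y

@[simp] theorem K_mul (g h : K) (x : Om) : (g * h).1 x = g.1 (h.1 x) := rfl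
@[simp] theorem K_one (x : Om) : (1 : K).1 x = x := rfl
@[simp] theorem K_inv_apply (g : K) (x : Om) : (g⁻¹).1 (g.1 x) = x := by
  rw [← K_mul, inv_mul_cancel, K_one]
@[simp] theorem K_apply_inv (g : K) (x : Om) : g.1 ((g⁻¹).1 x) = x := by
  rw [← K_mul, mul_inv_cancel, K_one]
theorem K_ext {g h : K} (e : ∀ x, g.1 x = h.1 x) : g = h := Subtype.ext (Equiv.ext e)
theorem K_inj (g : K) {x y : Om} (e : g.1 x = g.1 y) : x = y := g.1.injective e

/-- translation -/
def tr (c : Om) : K := ⟨Equiv.addRight c, fun n x y => by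
  constructor
  · intro h i hi
    have := h i hi
    simpa using this
  · intro h i hi
    simp [h i hi]⟩

@[simp] theorem tr_apply (c x : Om) : (tr c).1 x = x + c := rfl

theorem trans_ends (x y : Om) : ∃ g : K, g.1 x = y := ⟨tr (y - x), by simp⟩

/-- level stabiliser -/
def St (n : ℕ) : Subgroup K where
  carrier := {g | ∀ x, ag n (g.1 x) x}
  one_mem' := fun x => ag_refl _ _
  mul_mem' := fun {a b} ha hb x => ag_trans (ha _) (hb x)
  inv_mem' := fun {a} ha x => by
    have := ha ((a⁻¹).1 x)
    rw [K_apply_inv] at this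
    exact ag_symm this

theorem mem_St {n : ℕ} {g : K} : g ∈ St n ↔ ∀ x, ag n (g.1 x) x := Iff.rfl

/-- pointwise stabiliser of a finite set of ends -/
def Fx (F : Finset Om) : Subgroup K where
  carrier := {g | ∀ x ∈ F, g.1 x = x}
  one_mem' := fun _ _ => rfl
  mul_mem' := fun {a b} ha hb x hx => by rw [K_mul, hb x hx, ha x hx]
  inv_mem' := fun {a} ha x hx => by
    have := K_inv_apply a x
    rwa [ha x hx] at this

theorem mem_Fx {F : Finset Om} {g : K} : g ∈ Fx F ↔ ∀ x ∈ F, g.1 x = x := Iff.rfl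

open Classical in
/-- restriction of an element of a level stabiliser to a union of cylinders -/
noncomputable def res (m : ℕ) (p : Om → Prop) (hp : ∀ x y, ag m x y → p x → p y)
    (g : K) (hg : g ∈ St m) : K :=
  ⟨{ toFun := fun x => if p x then g.1 x else x
     invFun := fun x => if p x then (g⁻¹).1 x else x
     left_inv := fun x => by
       by_cases h : p x
       · have : p (g.1 x) := hp _ _ (ag_symm (hg x)) h
         simp [h, this]
       · simp [h]
     right_inv := fun x => by
       by_cases h : p x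
       · have : p ((g⁻¹).1 x) := hp _ _ (ag_symm ((St m).inv_mem hg x)) h
         simp only [h, if_true, this, K_apply_inv]
       · simp [h] }, fun n x y => by
    have key : ∀ z, ag m (if p z then g.1 z else z) z := fun z => by
      split_ifs
      · exact hg z
      · exact ag_refl _ _
    show ag n (if p x then g.1 x else x) (if p y then g.1 y else y) ↔ ag n x y
    rcases le_total n m with hnm | hmn
    · exact ag_congr (ag_mono hnm (key x)) (ag_mono hnm (key y))
    · by_cases hxy : ag m x y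
      · by_cases hx : p x
        · rw [if_pos hx, if_pos (hp _ _ hxy hx)]
          exact K_ag g n x y
        · rw [if_neg hx, if_neg (fun h => hx (hp _ _ (ag_symm hxy) h))]
      · constructor
        · intro h
          exact absurd ((ag_congr (key x) (key y)).1 (ag_mono hmn h)) hxy
        · intro h
          exact absurd (ag_mono hmn h) hxy⟩

theorem res_pos {m : ℕ} {p : Om → Prop} (hp : ∀ x y, ag m x y → p x → p y)
    {g : K} (hg : g ∈ St m) {x : Om} (h : p x) : (res m p hp g hg).1 x = g.1 x := by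
  show (open Classical in if p x then g.1 x else x) = _
  rw [if_pos h]

theorem res_neg {m : ℕ} {p : Om → Prop} (hp : ∀ x y, ag m x y → p x → p y)
    {g : K} (hg : g ∈ St m) {x : Om} (h : ¬ p x) : (res m p hp g hg).1 x = x := by
  show (open Classical in if p x then g.1 x else x) = _
  rw [if_neg h]

/-- splitting an element of a deep level stabiliser along two disjoint finite sets -/
theorem split (F F' : Finset Om) (hd : ∀ x ∈ F, x ∉ F') :
    ∃ N, ∀ g ∈ St N, ∃ a ∈ Fx F, ∃ b ∈ Fx F', g = a * b := by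
  have h1 : ∀ᶠ N in atTop, ∀ x ∈ F, ∀ y ∈ F', ¬ ag N x y := by
    rw [eventually_all_finset]
    intro x hx
    rw [eventually_all_finset]
    intro y hy
    have hne : x ≠ y := fun e => hd x hx (e ▸ hy)
    obtain ⟨n, hn⟩ : ∃ n, ¬ ag n x y := by
      by_contra hc
      push Not at hc
      exact hne (eq_of_ag hc)
    filter_upwards [eventually_ge_atTop n] with N hN h using hn (ag_mono hN h)
  obtain ⟨N, hN⟩ := h1.exists
  refine ⟨N, fun g hg => ?_⟩
  have hp : ∀ x y, ag N x y → (∃ z ∈ F, ag N x z) → (∃ z ∈ F, ag N y z) :=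
    fun x y h ⟨z, hz, k⟩ => ⟨z, hz, ag_trans (ag_symm h) k⟩
  let b := res N (fun x => ∃ z ∈ F, ag N x z) hp g hg
  refine ⟨g * b⁻¹, fun x hx => ?_, b, fun y hy => ?_, by simp⟩
  · have hb : b.1 ((g⁻¹).1 x) = x := by
      rw [res_pos hp hg ⟨x, hx, (St N).inv_mem hg x⟩, K_apply_inv]
    have : (b⁻¹).1 x = (g⁻¹).1 x := by
      conv_lhs => rw [← hb]
      rw [K_inv_apply]
    rw [K_mul, this, K_apply_inv]
  · exact res_neg hp hg (fun ⟨z, hz, k⟩ => hN z hz y hy (ag_symm k))

theorem tr_single_mem (m : ℕ) : tr (Pi.single m 1) ∈ St m := fun x i hi => by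
  simp [Pi.single_apply, hi.ne]

/-- two non-commuting elements supported on a given cylinder -/
theorem exists_noncomm (L : ℕ) (w : Om) : ∃ a a' : K, (∀ x, ¬ ag L x w → a.1 x = x) ∧
    (∀ x, ¬ ag L x w → a'.1 x = x) ∧ a * a' ≠ a' * a := by
  have hp : ∀ L x y, ag L x y → ag L x w → ag L y w := fun L x y h k => ag_trans (ag_symm h) k
  refine ⟨res L _ (hp L) _ (tr_single_mem L), res (L + 1) _ (hp (L + 1)) _ (tr_single_mem (L + 1)),
    fun x hx => res_neg _ _ hx, fun x hx => res_neg _ _ (fun h => hx (ag_mono (Nat.le_succ L) h)),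
    fun e => ?_⟩
  have e1 := congrArg (fun g : K => g.1 w (L + 1)) e
  simp only [K_mul] at e1
  rw [res_pos (hp (L + 1)) _ (ag_refl _ _), res_pos (hp L) _ (ag_refl _ _),
    res_pos (hp L) _ (ag_mono (Nat.le_succ L) (tr_single_mem (L + 1) w)),
    res_neg (hp (L + 1))] at e1
  · simp at e1
  · intro h
    have := h L (Nat.lt_succ_self L)
    simp at this

theorem comm_of_disjoint (a b : K) (P Q : Om → Prop) (hPQ : ∀ x, P x → ¬ Q x)
    (ha : ∀ x, ¬ P x → a.1 x = x) (hb : ∀ x, ¬ Q x → b.1 x = x) : a * b = b * a := by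
  have haP : ∀ x, P x → P (a.1 x) := fun x hx => by
    by_contra hc
    have := K_inj a (ha _ hc)
    rw [this] at hc
    exact hc hx
  have hbQ : ∀ x, Q x → Q (b.1 x) := fun x hx => by
    by_contra hc
    have := K_inj b (hb _ hc)
    rw [this] at hc
    exact hc hx
  refine K_ext fun x => ?_
  rw [K_mul, K_mul]
  by_cases hP : P x
  · rw [hb x (hPQ x hP), hb _ (hPQ _ (haP x hP))]
  · rw [ha x hP]
    by_cases hQ : Q x
    · rw [ha _ (fun h => hPQ _ h (hbQ x hQ))]
    · rw [hb x hQ, ha x hP]

/-- end stabilisers are cut out by commutation relations -/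
theorem stab_comm (ξ : Om) (g : K) (hg : g.1 ξ ≠ ξ) : ∃ a b : K,
    (∀ h : K, h.1 ξ = ξ → (h * a * h⁻¹) * b = b * (h * a * h⁻¹)) ∧
      (g * a * g⁻¹) * b ≠ b * (g * a * g⁻¹) := by
  obtain ⟨n, hn⟩ : ∃ n, ¬ ag n (g.1 ξ) ξ := by
    by_contra hc
    push Not at hc
    exact hg (eq_of_ag hc)
  obtain ⟨a, a', ha, ha', hne⟩ := exists_noncomm n ξ
  refine ⟨a, g * a' * g⁻¹, fun h hh => ?_, fun e => hne ?_⟩
  · refine comm_of_disjoint _ _ (fun x => ag n x ξ) (fun x => ag n x (g.1 ξ)) ?_ ?_ ?_
    · intro x h1 h2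
      exact hn (ag_trans (ag_symm h2) h1)
    · intro x hx
      rw [K_mul, K_mul, ha, K_apply_inv]
      intro k
      apply hx
      have := (K_ag h n _ _).2 k
      rwa [K_apply_inv, hh] at this
    · intro x hx
      rw [K_mul, K_mul, ha', K_apply_inv]
      intro k
      apply hx
      have := (K_ag g n _ _).2 k
      rwa [K_apply_inv] at this
  · have : g * (a * a') * g⁻¹ = g * (a' * a) * g⁻¹ := by
      calc g * (a * a') * g⁻¹ = (g * a * g⁻¹) * (g * a' * g⁻¹) := by group
        _ = (g * a' * g⁻¹) * (g * a * g⁻¹) := e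
        _ = _ := by group
    simpa using this

/-- truncation of an end -/
def trunc (n : ℕ) (s : Fin n → ZMod 2) : Om := fun i => if h : i < n then s ⟨i, h⟩ else 0

theorem ag_trunc (n : ℕ) (x : Om) : ag n x (trunc n fun i => x i) := fun i hi => by
  simp [trunc, hi]

/-- limits along ultrafilters -/
theorem exists_lim (U : Ultrafilter K) : ∃ g : K, ∀ n, ∀ᶠ h in (U : Filter K), g⁻¹ * h ∈ St n := by
  have hl : ∀ φ : K → Om, ∃ z : Om, ∀ n, ∀ᶠ h in (U : Filter K), ag n (φ h) z := fun φ => by
    have h1 : ∀ i, ∃ c : ZMod 2, ∀ᶠ h in (U : Filter K), φ h i = c := fun i => by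
      have : ∀ᶠ h in (U : Filter K), ∃ c ∈ (Set.univ : Set (ZMod 2)), φ h i = c :=
        Eventually.of_forall fun h => ⟨_, trivial, rfl⟩
      obtain ⟨c, -, hc⟩ := (Ultrafilter.eventually_exists_mem_iff Set.finite_univ).1 this
      exact ⟨c, hc⟩
    choose z hz using h1
    refine ⟨z, fun n => ?_⟩
    have : ∀ᶠ h in (U : Filter K), ∀ i ∈ Finset.range n, φ h i = z i :=
      (eventually_all_finset _).2 fun i _ => hz i
    filter_upwards [this] with h hh i hi using hh i (Finset.mem_range.2 hi)
  choose φ hφ using fun x => hl (fun h => h.1 x)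
  choose ψ hψ using fun x => hl (fun h => (h⁻¹).1 x)
  let g : K := ⟨{ toFun := φ
                  invFun := ψ
                  left_inv := fun x => eq_of_ag fun n => by
                    obtain ⟨h, h1, h2⟩ := ((hφ x n).and (hψ (φ x) n)).exists
                    have := (K_ag h⁻¹ n _ _).2 h1
                    rw [K_inv_apply] at this
                    exact ag_symm (ag_trans this h2)
                  right_inv := fun x => eq_of_ag fun n => by
                    obtain ⟨h, h1, h2⟩ := ((hψ x n).and (hφ (ψ x) n)).exists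
                    have := (K_ag h n _ _).2 h1
                    rw [K_apply_inv] at this
                    exact ag_symm (ag_trans this h2) }, fun n x y => by
      obtain ⟨h, h1, h2⟩ := ((hφ x n).and (hφ y n)).exists
      exact (ag_congr h1 h2).symm.trans (K_ag h n x y)⟩
  refine ⟨g, fun n => ?_⟩
  have : ∀ᶠ h in (U : Filter K), ∀ s : Fin n → ZMod 2, ag n (h.1 (trunc n s)) (φ (trunc n s)) :=
    eventually_all.2 fun s => hφ _ n
  filter_upwards [this] with h hh x
  have h1 : ag n (h.1 x) (g.1 x) :=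
    ag_trans ((K_ag h n _ _).2 (ag_trunc n x))
      (ag_trans (hh _) ((K_ag g n _ _).2 (ag_symm (ag_trunc n x))))
  have := (K_ag g⁻¹ n _ _).2 h1
  rwa [K_inv_apply] at this

theorem St_contains (n : ℕ) : ∃ F : Finset Om, Fx F ≤ St n := by
  classical
  refine ⟨Finset.univ.image (trunc n), fun g hg x => ?_⟩
  have h1 := hg (trunc n fun i => x i) (Finset.mem_image_of_mem _ (Finset.mem_univ _))
  have h2 := (K_ag g n _ _).2 (ag_trunc n x)
  rw [h1] at h2
  exact ag_trans h2 (ag_symm (ag_trunc n x))

end Pool.Agent.H.MP_a761b9_al
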