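import Pool.Agent.H.MP_a761b9_al.A

set_option autoImplicit false

namespace Pool.Agent.H.MP_a761b9_al

open Filter Topology

section key
variable {Y : Type} [Group Y] [TopologicalSpace Y] [IsTopologicalGroup Y] [T2Space Y]

/-- dichotomy for Hausdorff group topologies coarser than pointwise convergence on ends -/
theorem dichotomy [TopologicalSpace K] [IsTopologicalGroup K] [T2Space K]
    (h1 : ∀ V ∈ 𝓝 (1 : K), ∃ F : Finset Om, (Fx F : Set K) ⊆ V) :
    (∀ ξ : Om, {g : K | g.1 ξ = ξ} ∈ 𝓝 (1 : K)) ∨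
      (∀ V ∈ 𝓝 (1 : K), ∃ n, (St n : Set K) ⊆ V) := by
  classical
  by_cases hA : ∃ ξ : Om, {g : K | g.1 ξ = ξ} ∈ 𝓝 (1 : K)
  · left
    obtain ⟨ξ, hξ⟩ := hA
    intro η
    obtain ⟨t, ht⟩ := trans_ends ξ η
    have hc : Tendsto (fun g : K => t⁻¹ * g * t) (𝓝 1) (𝓝 1) := by
      have : Continuous (fun g : K => t⁻¹ * g * t) := by fun_prop
      simpa using this.tendsto 1
    filter_upwards [hc hξ] with g hg
    have hg' : (t⁻¹).1 (g.1 (t.1 ξ)) = ξ := hg
    have := congrArg t.1 hg'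
    rwa [K_apply_inv, ht] at this
  · right
    push Not at hA
    have hcl : ∀ ξ : Om, IsClosed {g : K | g.1 ξ = ξ} := fun ξ => by
      rw [← isOpen_compl_iff, isOpen_iff_mem_nhds]
      intro g hg
      obtain ⟨a, b, hab, hne⟩ := stab_comm ξ g hg
      have hc : IsClosed {h : K | (h * a * h⁻¹) * b = b * (h * a * h⁻¹)} :=
        isClosed_eq (by fun_prop) (by fun_prop)
      filter_upwards [hc.isOpen_compl.mem_nhds hne] with h hh k using hh (hab h k)
    have hcl2 : ∀ ξ η : Om, IsClosed {g : K | g.1 ξ = η} := fun ξ η => by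
      obtain ⟨t, ht⟩ := trans_ends η ξ
      have : {g : K | g.1 ξ = η} = (fun g => t * g) ⁻¹' {g : K | g.1 ξ = ξ} := by
        ext g
        simp only [Set.mem_setOf_eq, Set.mem_preimage, K_mul]
        constructor
        · intro h
          rw [h, ht]
        · intro h
          exact K_inj t (h.trans ht.symm)
      rw [this]
      exact (hcl ξ).preimage (by fun_prop)
    have hd : ∀ ξ η : Om, Dense {g : K | g.1 ξ = η}ᶜ := fun ξ η => by
      rw [← interior_eq_empty_iff_dense_compl, Set.eq_empty_iff_forall_notMem]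
      intro g hg
      have hg0 : g ∈ {g : K | g.1 ξ = η} := interior_subset hg
      rw [Set.mem_setOf_eq] at hg0
      rw [mem_interior_iff_mem_nhds] at hg
      apply hA ξ
      have hc : Tendsto (fun h : K => g * h) (𝓝 1) (𝓝 g) := by
        have : Continuous (fun h : K => g * h) := by fun_prop
        simpa using this.tendsto 1
      filter_upwards [hc hg] with h hh
      have hh' : g.1 (h.1 ξ) = η := hh
      exact K_inj g (hh'.trans hg0.symm)
    have hdF : ∀ S : Finset (Om × Om), Dense {g : K | ∀ p ∈ S, g.1 p.1 ≠ p.2} := fun S => by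
      induction S using Finset.induction_on with
      | empty => simp
      | insert p S _ ih =>
        have := Dense.inter_of_isOpen_left (hd p.1 p.2) ih (hcl2 p.1 p.2).isOpen_compl
        refine this.mono fun g hg q hq => ?_
        rcases Finset.mem_insert.1 hq with rfl | hq
        · exact hg.1
        · exact hg.2 q hq
    intro V hV
    obtain ⟨W, hW, hWV⟩ := exists_nhds_one_split4 hV
    obtain ⟨F, hF⟩ := h1 W hW
    have hW' : W ∩ W⁻¹ ∈ 𝓝 (1 : K) := inter_mem hW (inv_mem_nhds_one K hW)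
    obtain ⟨g, hg1, hg2⟩ := (hdF (F ×ˢ F)).inter_nhds_nonempty hW'
    obtain ⟨N, hN⟩ := split F (F.image g.1) (fun x hx hx' => by
      obtain ⟨y, hy, e⟩ := Finset.mem_image.1 hx'
      exact hg1 (y, x) (Finset.mem_product.2 ⟨hy, hx⟩) e)
    refine ⟨N, fun s hs => ?_⟩
    obtain ⟨a, ha, b, hb, rfl⟩ := hN s hs
    have hb' : g⁻¹ * b * g ∈ Fx F := fun x hx => by
      rw [K_mul, K_mul, hb _ (Finset.mem_image_of_mem _ hx), K_inv_apply]
    have := hWV (hF ha) hg2.1 (hF hb') hg2.2
    have e : a * g * (g⁻¹ * b * g) * g⁻¹ = a * b := by group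
    rwa [e] at this

theorem closed_range (f : K →* Y) (hf : Function.Injective f)
    (h1 : ∀ V ∈ 𝓝 (1 : Y), ∃ F : Finset Om, ∀ g ∈ Fx F, f g ∈ V) :
    IsClosed (Set.range f) := by
  have hD : (∀ ξ : Om, ∃ O ∈ 𝓝 (1 : Y), ∀ g : K, f g ∈ O → g.1 ξ = ξ) ∨
      (∀ V ∈ 𝓝 (1 : Y), ∃ n, ∀ g ∈ St n, f g ∈ V) := by
    letI : TopologicalSpace K := TopologicalSpace.induced f inferInstance
    haveI : IsTopologicalGroup K := topologicalGroup_induced f
    haveI : T2Space K := T2Space.of_injective_continuous hf continuous_induced_dom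
    have hn : 𝓝 (1 : K) = comap f (𝓝 1) := by rw [nhds_induced, map_one]
    rcases dichotomy (fun V hV => by
      rw [hn] at hV
      obtain ⟨O, hO, hOV⟩ := hV
      obtain ⟨F, hF⟩ := h1 O hO
      exact ⟨F, fun g hg => hOV (hF g hg)⟩) with h | h
    · left
      intro ξ
      have := h ξ
      rw [hn] at this
      obtain ⟨O, hO, hOV⟩ := this
      exact ⟨O, hO, fun g hg => hOV hg⟩
    · right
      intro V hV
      obtain ⟨n, hn'⟩ := h (f ⁻¹' V) (by rw [hn]; exact preimage_mem_comap hV)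
      exact ⟨n, fun g hg => hn' hg⟩
  rw [← closure_subset_iff_isClosed]
  intro y hy
  have hne : NeBot (comap f (𝓝 y)) := by
    rw [comap_neBot_iff]
    intro t ht
    obtain ⟨z, hz, x, rfl⟩ := mem_closure_iff_nhds.1 hy t ht
    exact ⟨x, hz⟩
  let U : Ultrafilter K := Ultrafilter.of (comap f (𝓝 y))
  have hU : Tendsto f U (𝓝 y) := tendsto_comap.mono_left (Ultrafilter.of_le _)
  obtain ⟨g, hg⟩ := exists_lim U
  have hT : Tendsto (fun h => f (g⁻¹ * h)) U (𝓝 1) := by
    rcases hD with h | h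
    · have hx : ∀ ξ, ∀ᶠ k in (U : Filter K), k.1 ξ = g.1 ξ := fun ξ => by
        obtain ⟨O, hO, hOf⟩ := h ξ
        have hc : Tendsto (fun p : Y × Y => p.1⁻¹ * p.2) (𝓝 y ×ˢ 𝓝 y) (𝓝 1) := by
          have : Continuous (fun p : Y × Y => p.1⁻¹ * p.2) := by fun_prop
          have := this.tendsto (y, y)
          rw [nhds_prod_eq] at this
          simpa using this
        obtain ⟨W, hW, hWO⟩ := mem_prod_self_iff.1 (hc hO)
        have hA : ∀ᶠ k in (U : Filter K), f k ∈ W := hU hW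
        obtain ⟨k0, hk0⟩ := hA.exists
        have hB : ∀ k, f k ∈ W → k.1 ξ = k0.1 ξ := fun k hk => by
          have h2 : (f k0)⁻¹ * f k ∈ O := hWO (Set.mk_mem_prod hk0 hk)
          rw [← map_inv, ← map_mul] at h2
          have := congrArg k0.1 (hOf _ h2)
          rwa [K_mul, K_apply_inv] at this
        have hC : k0.1 ξ = g.1 ξ := eq_of_ag fun n => by
          obtain ⟨k, hk1, hk2⟩ := (hA.and (hg n)).exists
          have := (K_ag g n _ _).2 (hk2 ξ)
          rwa [K_mul, K_apply_inv, hB k hk1] at this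
        filter_upwards [hA] with k hk using (hB k hk).trans hC
      intro V hV
      obtain ⟨F, hF⟩ := h1 V hV
      have : ∀ᶠ k in (U : Filter K), ∀ ξ ∈ F, k.1 ξ = g.1 ξ :=
        (eventually_all_finset _).2 fun ξ _ => hx ξ
      rw [mem_map]
      filter_upwards [this] with k hk
      refine hF _ fun ξ hξ => ?_
      rw [K_mul, hk ξ hξ, K_inv_apply]
    · intro V hV
      obtain ⟨n, hn⟩ := h V hV
      rw [mem_map]
      filter_upwards [hg n] with k hk using hn _ hk
  have hT2 : Tendsto (fun h => f (g⁻¹ * h)) U (𝓝 ((f g)⁻¹ * y)) := by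
    simp only [map_mul, map_inv]
    exact tendsto_const_nhds.mul hU
  have := tendsto_nhds_unique hT2 hT
  exact ⟨g, (inv_mul_eq_one.1 this)⟩

end key

/-- basis of the topology of pointwise convergence on the discrete set of ends -/
@[reducible] def B1 : GroupFilterBasis K where
  sets := {V | ∃ F : Finset Om, V = Fx F}
  nonempty := ⟨_, ∅, rfl⟩
  inter_sets := by
    classical
    rintro _ _ ⟨F, rfl⟩ ⟨F', rfl⟩
    exact ⟨_, ⟨F ∪ F', rfl⟩, fun g hg => ⟨fun x hx => hg x (Finset.mem_union_left _ hx),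
      fun x hx => hg x (Finset.mem_union_right _ hx)⟩⟩
  one' := by
    rintro _ ⟨F, rfl⟩
    exact (Fx F).one_mem
  mul' := by
    rintro _ ⟨F, rfl⟩
    refine ⟨_, ⟨F, rfl⟩, ?_⟩
    rintro _ ⟨a, ha, b, hb, rfl⟩
    exact (Fx F).mul_mem ha hb
  inv' := by
    rintro _ ⟨F, rfl⟩
    exact ⟨_, ⟨F, rfl⟩, fun a ha => (Fx F).inv_mem ha⟩
  conj' := by
    classical
    rintro t _ ⟨F, rfl⟩
    refine ⟨_, ⟨F.image (t⁻¹).1, rfl⟩, fun a ha x hx => ?_⟩
    rw [K_mul, K_mul, ha _ (Finset.mem_image_of_mem _ hx), K_apply_inv]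

/-- basis of the profinite topology -/
@[reducible] def B0 : GroupFilterBasis K where
  sets := {V | ∃ n : ℕ, V = St n}
  nonempty := ⟨_, 0, rfl⟩
  inter_sets := by
    rintro _ _ ⟨n, rfl⟩ ⟨m, rfl⟩
    exact ⟨_, ⟨max n m, rfl⟩, fun g hg => ⟨fun x => ag_mono (le_max_left _ _) (hg x),
      fun x => ag_mono (le_max_right _ _) (hg x)⟩⟩
  one' := by
    rintro _ ⟨F, rfl⟩
    exact (St F).one_mem
  mul' := by
    rintro _ ⟨F, rfl⟩
    refine ⟨_, ⟨F, rfl⟩, ?_⟩
    rintro _ ⟨a, ha, b, hb, rfl⟩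
    exact (St F).mul_mem ha hb
  inv' := by
    rintro _ ⟨F, rfl⟩
    exact ⟨_, ⟨F, rfl⟩, fun a ha => (St F).inv_mem ha⟩
  conj' := by
    rintro t _ ⟨n, rfl⟩
    refine ⟨_, ⟨n, rfl⟩, fun a ha x => ?_⟩
    have := (K_ag t n _ _).2 (ha ((t⁻¹).1 x))
    rwa [K_apply_inv] at this

/-- the group with the fine topology -/
def X1 : Type := K
/-- the group with the compact topology -/
def X0 : Type := K

instance : Group X1 := inferInstanceAs (Group K)
instance : Group X0 := inferInstanceAs (Group K)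
instance : TopologicalSpace X1 := B1.topology
instance : TopologicalSpace X0 := B0.topology
instance : IsTopologicalGroup X1 := B1.isTopologicalGroup
instance : IsTopologicalGroup X0 := B0.isTopologicalGroup

theorem nhds1 (V : Set X1) : V ∈ 𝓝 (1 : X1) ↔ ∃ F : Finset Om, ∀ g : K, g ∈ Fx F → (g : X1) ∈ V := by
  refine B1.nhds_one_hasBasis.mem_iff.trans ⟨?_, ?_⟩
  · rintro ⟨_, ⟨F, rfl⟩, h⟩
    exact ⟨F, fun g hg => h hg⟩
  · rintro ⟨F, h⟩
    exact ⟨_, ⟨F, rfl⟩, fun g hg => h g hg⟩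

theorem nhds0 (V : Set X0) : V ∈ 𝓝 (1 : X0) ↔ ∃ n, ∀ g : K, g ∈ St n → (g : X0) ∈ V := by
  refine B0.nhds_one_hasBasis.mem_iff.trans ⟨?_, ?_⟩
  · rintro ⟨_, ⟨F, rfl⟩, h⟩
    exact ⟨F, fun g hg => h hg⟩
  · rintro ⟨F, h⟩
    exact ⟨_, ⟨F, rfl⟩, fun g hg => h g hg⟩

instance : T2Space X0 := by
  refine IsTopologicalGroup.t2Space_of_one_sep fun x hx => ?_
  by_contra hc
  push Not at hc
  apply hx
  refine K_ext fun ξ => eq_of_ag fun n => ?_
  exact hc {g : K | g ∈ St n} ((nhds0 _).2 ⟨n, fun g hg => hg⟩) ξ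

instance : CompactSpace X0 := ⟨by
  rw [isCompact_iff_ultrafilter_le_nhds']
  intro U _
  obtain ⟨g, hg⟩ := exists_lim U
  refine ⟨g, trivial, fun V hV => ?_⟩
  have hc : Tendsto (fun h : X0 => (show X0 from g) * h) (𝓝 1) (𝓝 g) := by
    have : Continuous (fun h : X0 => (show X0 from g) * h) := by fun_prop
    simpa using this.tendsto 1
  obtain ⟨n, hn⟩ := (nhds0 _).1 (hc hV)
  filter_upwards [hg n] with k hk
  have h2 : (show X0 from (g * (g⁻¹ * (show K from k)) : K)) ∈ V := hn _ hk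
  rwa [mul_inv_cancel_left] at h2⟩

/-- the identity map -/
def id10 : X1 →* X0 := MonoidHom.id K

theorem cont_id10 : Continuous id10 := by
  refine continuous_of_continuousAt_one id10 ?_
  intro V hV
  rw [map_one] at hV
  obtain ⟨n, hn⟩ := (nhds0 _).1 hV
  obtain ⟨F, hF⟩ := St_contains n
  exact (nhds1 _).2 ⟨F, fun g hg => hn g (hF hg)⟩

instance : T2Space X1 := T2Space.of_injective_continuous (f := id10) (fun _ _ h => h) cont_id10

theorem not_compact : ¬ CompactSpace X1 := by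
  classical
  intro h
  have hU : ∀ g : X1, g ∈ Set.univ → {k : X1 | (show K from k).1 0 = (show K from g).1 0} ∈ 𝓝 g := by
    intro g _
    have hc : Tendsto (fun h : X1 => g⁻¹ * h) (𝓝 g) (𝓝 1) := by
      have : Continuous (fun h : X1 => g⁻¹ * h) := by fun_prop
      simpa using this.tendsto g
    have h1 : {k : X1 | (show K from k).1 0 = 0} ∈ 𝓝 (1 : X1) :=
      (nhds1 _).2 ⟨{0}, fun k hk => hk 0 (Finset.mem_singleton_self _)⟩
    filter_upwards [hc h1] with k hk
    have hk' : ((show K from g)⁻¹).1 ((show K from k).1 0) = 0 := hk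
    have := congrArg (show K from g).1 hk'
    rwa [K_apply_inv] at this
  obtain ⟨t, -, ht⟩ := isCompact_univ.elim_nhds_subcover _ hU
  refine Set.infinite_univ (α := Om) ((t.image fun g => (show K from g).1 0).finite_toSet.subset ?_)
  intro η _
  obtain ⟨k, hk⟩ := trans_ends 0 η
  have := ht (Set.mem_univ (show X1 from k))
  simp only [Set.mem_iUnion] at this
  obtain ⟨g, hg, e⟩ := this
  exact Finset.mem_coe.2 (Finset.mem_image.2 ⟨g, hg, e.symm.trans hk⟩)

theorem closedX1 (Y : Type) [Group Y] [TopologicalSpace Y] [IsTopologicalGroup Y] [T2Space Y]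
    (f : X1 →* Y) (hc : Continuous f) (hf : Function.Injective f) : IsClosed (Set.range f) := by
  refine closed_range (show K →* Y from f) hf fun V hV => ?_
  have : f ⁻¹' V ∈ 𝓝 (1 : X1) := hc.continuousAt (by rwa [map_one])
  exact (nhds1 _).1 this

end Pool.Agent.H.MP_a761b9_al
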